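import Pool.Agent.H37.CSZ.Stmts

/-!
# Board `csz`, row ZZA (helper51): the degree of an Artin-Schreier extension with `q = |F|`
-/

set_option autoImplicit false

namespace Pool.CND

open Polynomial

/-- `∏_(a ∈ F) (y - a) = y ^ q - y` in every commutative `F`-algebra -/
private theorem zza_prod {F A : Type} [Field F] [Fintype F] [CommRing A] (e : F →+* A) (y : A) :
    ∏ a : F, (y - e a) = y ^ Fintype.card F - y := by
  have h0 : (X ^ Fintype.card F - X : F[X]) ≠ 0 :=
    FiniteField.X_pow_card_sub_X_ne_zero F Fintype.one_lt_card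
  have hm : (X ^ Fintype.card F - X : F[X]).Monic := by
    refine monic_X_pow_sub ?_
    rw [degree_X]
    exact_mod_cast Fintype.one_lt_card
  have h1 := prod_multiset_X_sub_C_of_monic_of_roots_card_eq hm (by
    rw [FiniteField.roots_X_pow_card_sub_X,
      FiniteField.X_pow_card_sub_X_natDegree_eq F Fintype.one_lt_card]
    rfl)
  rw [FiniteField.roots_X_pow_card_sub_X] at h1
  have h2 := congrArg (eval₂ e y) h1
  rw [eval₂_sub, eval₂_pow, eval₂_X] at h2
  rw [← h2]
  have h3 : (Multiset.map (fun a : F => (X - C a : F[X])) Finset.univ.val).prod =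
      ∏ a : F, (X - C a) := rfl
  rw [h3, eval₂_finsetProd]
  refine Finset.prod_congr rfl fun a _ => ?_
  rw [eval₂_sub, eval₂_X, eval₂_C]

/-- a proper subspace of a finite field over `ZMod 2` is killed by some `Tr(c ·)`, `c ≠ 0` -/
private theorem zza_dual {F : Type} [Field F] [Fintype F] [Algebra (ZMod 2) F]
    (S : Submodule (ZMod 2) F) (hS : S ≠ ⊤) :
    ∃ c : F, c ≠ 0 ∧ ∀ a ∈ S, Algebra.trace (ZMod 2) F (c * a) = 0 := by
  have hfin : Module.finrank (ZMod 2) S < Module.finrank (ZMod 2) F :=
    Submodule.finrank_lt hS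
  let Ψ : F →ₗ[ZMod 2] Module.Dual (ZMod 2) S :=
    (Submodule.dualRestrict S).comp (Algebra.traceForm (ZMod 2) F)
  have hker : LinearMap.ker Ψ ≠ ⊥ := by
    refine LinearMap.ker_ne_bot_of_finrank_lt ?_
    rw [Subspace.dual_finrank_eq]
    exact hfin
  obtain ⟨c, hc, hc0⟩ := Submodule.exists_mem_ne_zero_of_ne_bot hker
  refine ⟨c, hc0, fun a ha => ?_⟩
  have h1 : Ψ c ⟨a, ha⟩ = 0 := by
    rw [LinearMap.mem_ker] at hc
    rw [hc]
    rfl
  exact h1

/-- the telescoping sum -/
private theorem zza_tel {A : Type} [CommRing A] [CharP A 2] (y : A) (m : ℕ) :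
    (∑ i ∈ Finset.range m, y ^ (2 ^ i)) ^ 2 + ∑ i ∈ Finset.range m, y ^ (2 ^ i) =
      y ^ (2 ^ m) + y := by
  induction m with
  | zero =>
    rw [Finset.sum_range_zero, pow_zero, pow_one, CharTwo.add_self_eq_zero]
    ring
  | succ m ih =>
    rw [Finset.sum_range_succ, CharTwo.add_sq, pow_succ 2 m, pow_mul y]
    have h1 : y ^ 2 ^ m + y ^ 2 ^ m = 0 := CharTwo.add_self_eq_zero _
    linear_combination ih + h1

/-- the sum of the powers is additive -/
private theorem zza_add {A : Type} [CommRing A] [CharP A 2] (y x : A) (m : ℕ) :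
    ∑ i ∈ Finset.range m, (y + x) ^ (2 ^ i) =
      ∑ i ∈ Finset.range m, y ^ (2 ^ i) + ∑ i ∈ Finset.range m, x ^ (2 ^ i) := by
  haveI : Fact (Nat.Prime 2) := ⟨Nat.prime_two⟩
  rw [← Finset.sum_add_distrib]
  exact Finset.sum_congr rfl fun i _ => add_pow_char_pow _ _ _ _

theorem zza_thm : S_ZZA := by
  intro m q K Ω F _ _ _ _ _ g z hK2 hm hq hF hz hg
  have hq2 : 2 ≤ q := by
    rw [hq]
    calc 2 = 2 ^ 1 := by norm_num
      _ ≤ 2 ^ m := Nat.pow_le_pow_right (by norm_num) hm
  haveI : Finite F := Nat.finite_of_card_ne_zero (by omega)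
  haveI : Fintype F := Fintype.ofFinite F
  haveI : Fact (Nat.Prime 2) := ⟨Nat.prime_two⟩
  have hcard : Fintype.card F = q := by rw [← Nat.card_eq_fintype_card, hF]
  haveI hF2 : CharP F 2 := (algebraMap F K).charP (algebraMap F K).injective 2
  letI : Algebra (ZMod 2) F := ZMod.algebra F 2
  -- the field
  let L := IntermediateField.adjoin K {z}
  let w : L := IntermediateField.AdjoinSimple.gen K z
  haveI hL2 : CharP L 2 := charP_of_injective_algebraMap (algebraMap K L).injective 2
  have hw : w ^ q + w = algebraMap K L g := by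
    apply Subtype.ext
    exact hz
  let e : F →+* L := (algebraMap K L).comp (algebraMap F K)
  have htwo : ∀ x : L, x + x = 0 := fun x => CharTwo.add_self_eq_zero x
  -- the polynomial
  let f : K[X] := X ^ q + (X - C g)
  have hprod : f.map (algebraMap K L) = ∏ a : F, (X - C (w + e a)) := by
    have h1 := zza_prod ((C : L →+* L[X]).comp e) (X - C w)
    haveI : CharP L[X] 2 := inferInstance
    have h2 : (X - C w : L[X]) ^ q = X ^ q - C w ^ q := by
      rw [hq]
      exact sub_pow_char_pow _ _ _
    rw [hcard, h2] at h1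
    have h3 : ∏ a : F, (X - C w - ((C : L →+* L[X]).comp e) a) =
        ∏ a : F, (X - C (w + e a)) := by
      refine Finset.prod_congr rfl fun a _ => ?_
      rw [RingHom.comp_apply, C_add]
      ring
    rw [← h3, h1]
    have h4 : (C (algebraMap K L g) : L[X]) = C w ^ q + C w := by
      rw [← hw, C_add, C_pow]
    have h5 : ∀ y : L[X], y + y = 0 := fun y => CharTwo.add_self_eq_zero y
    have h6 : f.map (algebraMap K L) = X ^ q + (X - C (algebraMap K L g)) := by
      simp [f]
    rw [h6, h4]
    linear_combination h5 (X : L[X]) - h5 (C w)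
  have hdlt : (X - C g : K[X]).degree < (q : ℕ) := by
    rw [degree_X_sub_C]
    exact_mod_cast hq2
  have hmon : f.Monic := monic_X_pow_add hdlt
  have hdeg : f.natDegree = q := by
    refine natDegree_eq_of_degree_eq_some ?_
    rw [show f = X ^ q + (X - C g) from rfl,
      degree_add_eq_left_of_degree_lt (by rw [degree_X_pow]; exact hdlt), degree_X_pow]
  have hf0 : f ≠ 0 := hmon.ne_zero
  have hsep : f.Separable := by
    rw [separable_def]
    have h1 : derivative f = 1 := by
      have h2 : ((q : ℕ) : K) = 0 := by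
        rw [hq, Nat.cast_pow]
        have h3 : ((2 : ℕ) : K) = 0 := CharP.cast_eq_zero K 2
        rw [h3, zero_pow (by omega)]
      have h4 : derivative (X ^ q : K[X]) = 0 := by
        rw [derivative_X_pow, h2, C_0, zero_mul]
      rw [show f = X ^ q + (X - C g) from rfl, derivative_add, h4, derivative_sub, derivative_X,
        derivative_C, sub_zero, zero_add]
    rw [h1]
    exact isCoprime_one_right
  have hspl : (f.map (algebraMap K L)).Splits := by
    rw [hprod]
    exact Splits.prod fun a _ => Splits.X_sub_C _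
  have hroot : w ∈ f.rootSet L := by
    rw [mem_rootSet]
    refine ⟨hf0, ?_⟩
    have h1 : aeval w f = w ^ q + (w - algebraMap K L g) := by simp [f]
    rw [h1, ← hw]
    ring
  have htop : IntermediateField.adjoin K (f.rootSet L) = ⊤ := by
    rw [eq_top_iff]
    have h1 : IntermediateField.adjoin K {w} = ⊤ := by
      apply IntermediateField.lift_injective L
      rw [IntermediateField.lift_adjoin_simple, IntermediateField.lift_top]
      rfl
    rw [← h1]
    exact IntermediateField.adjoin.mono K _ _ (Set.singleton_subset_iff.2 hroot)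
  haveI : IsSplittingField K L f := isSplittingField_iff_intermediateField.2 ⟨hspl, htop⟩
  haveI : FiniteDimensional K L := IsSplittingField.finiteDimensional L f
  haveI : IsGalois K L := IsGalois.of_separable_splitting_field hsep
  -- the automorphisms
  have hσe : ∀ (σ : L ≃ₐ[K] L) (a : F), σ (e a) = e a := fun σ a => σ.commutes _
  have hσ : ∀ σ : L ≃ₐ[K] L, ∃ a : F, σ w = w + e a := by
    intro σ
    have h1 : aeval (σ w) f = 0 := by
      rw [mem_rootSet] at hroot
      have h2 := aeval_algHom_apply (σ : L →ₐ[K] L) w f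
      rw [hroot.2, map_zero] at h2
      exact h2
    rw [aeval_def, ← eval_map, hprod, eval_prod, Finset.prod_eq_zero_iff] at h1
    obtain ⟨a, -, ha⟩ := h1
    rw [eval_sub, eval_X, eval_C, sub_eq_zero] at ha
    exact ⟨a, ha⟩
  let A : AddSubgroup F :=
    { carrier := {a | ∃ σ : L ≃ₐ[K] L, σ w = w + e a}
      zero_mem' := ⟨1, by rw [map_zero, add_zero]; rfl⟩
      add_mem' := by
        rintro a b ⟨σ, h1⟩ ⟨τ, h2⟩
        refine ⟨σ * τ, ?_⟩
        rw [AlgEquiv.mul_apply, h2, map_add, h1, hσe, map_add, add_assoc]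
      neg_mem' := by
        rintro a ⟨σ, h1⟩
        refine ⟨σ, ?_⟩
        rw [h1, CharTwo.neg_eq] }
  let S : Submodule (ZMod 2) F := AddSubgroup.toZModSubmodule 2 A
  have hSA : ∀ a : F, a ∈ S ↔ ∃ σ : L ≃ₐ[K] L, σ w = w + e a := fun a => Iff.rfl
  have hStop : S = ⊤ := by
    by_contra hne
    obtain ⟨c, hc0, hc⟩ := zza_dual S hne
    have hfr : Module.finrank (ZMod 2) F = m := by
      have h1 := Module.card_eq_pow_finrank (K := ZMod 2) (V := F)
      rw [hcard, ZMod.card, hq] at h1
      exact (Nat.pow_right_injective le_rfl h1).symm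
    have htr : ∀ a ∈ S, ∑ i ∈ Finset.range m, (c * a) ^ (2 ^ i) = 0 := by
      intro a ha
      have h1 := FiniteField.algebraMap_trace_eq_sum_pow (ZMod 2) F (c * a)
      rw [hc a ha, map_zero, hfr, Nat.card_zmod] at h1
      exact h1.symm
    have hfix : ∀ σ : L ≃ₐ[K] L, σ (∑ i ∈ Finset.range m, (e c * w) ^ (2 ^ i)) =
        ∑ i ∈ Finset.range m, (e c * w) ^ (2 ^ i) := by
      intro σ
      obtain ⟨a, ha⟩ := hσ σ
      have h1 : ∀ i, σ ((e c * w) ^ (2 ^ i)) = (e c * w + e (c * a)) ^ (2 ^ i) := by
        intro i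
        rw [map_pow, map_mul, hσe, ha, map_mul, mul_add]
      rw [map_sum, Finset.sum_congr rfl fun i _ => h1 i, zza_add]
      have h2 : ∑ i ∈ Finset.range m, (e (c * a)) ^ (2 ^ i) = 0 := by
        have h3 := congrArg e (htr a ((hSA a).2 ⟨σ, ha⟩))
        rw [map_sum, map_zero] at h3
        rw [← h3]
        exact Finset.sum_congr rfl fun i _ => (map_pow e _ _).symm
      rw [h2, add_zero]
    obtain ⟨r, hr⟩ := (IsGalois.mem_range_algebraMap_iff_fixed _).2 hfix
    refine hg c hc0 r ?_
    apply (algebraMap K L).injective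
    rw [map_add, map_pow, hr, zza_tel, map_mul, ← hw, ← hq, mul_pow]
    have h1 : (e c) ^ q = e c := by
      rw [← map_pow, ← hcard, FiniteField.pow_card]
    rw [h1]
    show e c * w ^ q + e c * w = e c * (w ^ q + w)
    ring
  -- the degree
  have hle : Module.finrank K L ≤ q := by
    have hzf : aeval z f = 0 := by
      have h1 : aeval z f = z ^ q + (z - algebraMap K Ω g) := by simp [f]
      rw [h1, ← hz]
      ring
    have hint : IsIntegral K z := ⟨f, hmon, hzf⟩
    have h1 := IntermediateField.adjoin.finrank hint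
    rw [h1]
    have h2 := natDegree_le_natDegree (minpoly.min K z hmon hzf)
    refine h2.trans ?_
    rw [hdeg]
  have hge : q ≤ Module.finrank K L := by
    rw [← IsGalois.card_aut_eq_finrank K L, ← hF]
    have h1 : ∀ a : F, ∃ σ : L ≃ₐ[K] L, σ w = w + e a := fun a =>
      (hSA a).1 (by rw [hStop]; exact Submodule.mem_top)
    choose σ hσa using h1
    refine Nat.card_le_card_of_injective σ fun a b hab => ?_
    have h2 := hσa a
    rw [hab, hσa b] at h2
    exact (e.injective (add_left_cancel h2)).symm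
  exact le_antisymm hle hge

end Pool.CND
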